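import Pool.Agent.Helper27.AB.PH3.Goals

/-! # Project AB, module PH3, packet EQV: equivariance of `Φ_J`. -/

open MeasureTheory Set Filter Topology
open scoped ContDiff

noncomputable section

namespace Pool.Agent.Helper20.AB

open Pool.Agent.Helper24.AB Pool.Agent.Helper15.AB Pool.Agent.Helper27.AB

lemma sq5 : Real.sqrt 5 * Real.sqrt 5 = 5 := Real.mul_self_sqrt (by norm_num)

lemma lam_pos : 0 < lam := by
  have := Real.sqrt_nonneg 5
  unfold lam
  positivity

lemma lam_mul : lam * (ph' + 1) = 1 := by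
  have h := sq5
  unfold lam ph'
  nlinarith

lemma alp_Jn (J : Fin 3 → ℤ) : alp (Jn J) = lam * alp J := by
  have h := sq5
  have e0 : Jn J 0 = 2 * J 0 + J 1 := rfl
  have e1 : Jn J 1 = J 0 + J 1 := rfl
  unfold alp
  rw [e0, e1]
  push_cast
  unfold lam ph
  linear_combination (-(J 0 : ℝ) / 4) * h

lemma alp'_Jn (J : Fin 3 → ℤ) : lam * alp' (Jn J) = alp' J := by
  have h := sq5
  have e0 : Jn J 0 = 2 * J 0 + J 1 := rfl
  have e1 : Jn J 1 = J 0 + J 1 := rfl
  unfold alp'
  rw [e0, e1]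
  push_cast
  unfold lam ph'
  linear_combination (-(2 * (J 0 : ℝ) + J 1) / 4) * h

lemma kap2pi : kap * (2 * Real.pi) = Real.log lam := by
  unfold kap
  have := Real.pi_ne_zero
  field_simp

lemma exp_add (t : ℝ) : Real.exp (kap * (t + 2 * Real.pi)) = lam * Real.exp (kap * t) := by
  rw [mul_add, kap2pi, Real.exp_add, Real.exp_log lam_pos, mul_comm]

lemma exp_neg_add (t : ℝ) :
    lam * Real.exp (-(kap * (t + 2 * Real.pi))) = Real.exp (-(kap * t)) := by
  rw [mul_add, kap2pi, neg_add, Real.exp_add, Real.exp_neg (Real.log lam), Real.exp_log lam_pos]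
  have := lam_pos.ne'
  field_simp

lemma uf_add (J : Fin 3 → ℤ) (t : ℝ) : uf (alp J) (t + 2 * Real.pi) = uf (alp (Jn J)) t := by
  unfold uf
  rw [exp_add, alp_Jn]
  ring

lemma vf_add (J : Fin 3 → ℤ) (t : ℝ) : vf (alp' J) (t + 2 * Real.pi) = vf (alp' (Jn J)) t := by
  unfold vf
  rw [← alp'_Jn J, ← exp_neg_add t]
  ring

theorem eqv3 : S_EQV := by
  intro a A δ₀ ρ₀ s p B hp J w
  have hre : (w + 2 * Real.pi * Complex.I).re = w.re := by simp
  have him : (w + 2 * Real.pi * Complex.I).im = w.im + 2 * Real.pi := by simp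
  have e2 : Jn J 2 = J 2 := rfl
  have hF : Ff a A s (alp J) (alp' J) (J 2) (w + 2 * Real.pi * Complex.I)
      = Ff a A s (alp (Jn J)) (alp' (Jn J)) (Jn J 2) w := by
    unfold Ff gf
    rw [hre, him, uf_add, vf_add, e2]
  unfold PhiJ Phi Phi0
  rw [hF, hre, him, uf_add, hp.p1, alp_Jn]
  ring

end Pool.Agent.Helper20.AB
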